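import Mathlib

set_option autoImplicit false

/-!
# Union-closed families with at most six undominated elements

Poonen's strict inequality for separating union-closed families with at most six undominated
elements.
-/

namespace Pool.Agent.Y384.UC.Few

open Finset

variable {α : Type*} [DecidableEq α]

/-- Number of members containing `x`. -/
def fr (A : Finset (Finset α)) (x : α) : ℕ := (A.filter (fun S => x ∈ S)).card

/-- The undominated elements. -/
def und (A : Finset (Finset α)) : Finset α :=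
  (A.sup id).filter (fun t => ∀ y ∈ A.sup id, (∀ S ∈ A, t ∈ S → y ∈ S) → y = t)

theorem mem_sup' {A : Finset (Finset α)} {x : α} : x ∈ A.sup id ↔ ∃ S ∈ A, x ∈ S := by
  rw [Finset.mem_sup]; rfl

theorem card_split (A : Finset (Finset α)) (x : α) :
    A.card = fr A x + (A.filter (fun S => x ∉ S)).card := by
  unfold fr
  exact (card_filter_add_card_filter_not (s := A) (fun S => x ∈ S)).symm

theorem sup_mem {A : Finset (Finset α)} (hU : ∀ X ∈ A, ∀ Y ∈ A, X ∪ Y ∈ A) (h0 : ∅ ∈ A)
    (B : Finset (Finset α)) (hB : B ⊆ A) : B.sup id ∈ A := by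
  induction B using Finset.induction_on with
  | empty => simpa using h0
  | insert a s ha ih =>
    rw [Finset.sup_insert]
    exact hU _ (hB (mem_insert_self _ _)) _ (ih (fun x hx => hB (mem_insert_of_mem hx)))

/-- Separation. -/
def Sep (A : Finset (Finset α)) : Prop :=
  ∀ x ∈ A.sup id, ∀ y ∈ A.sup id, x ≠ y → ∃ S ∈ A, (x ∈ S ∧ y ∉ S) ∨ (y ∈ S ∧ x ∉ S)

theorem eq_of_same {A : Finset (Finset α)} (hs : Sep A) {x y : α} (hx : x ∈ A.sup id)
    (hy : y ∈ A.sup id) (h1 : ∀ S ∈ A, x ∈ S → y ∈ S) (h2 : ∀ S ∈ A, y ∈ S → x ∈ S) : x = y := by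
  by_contra hne
  obtain ⟨S, hS, h | h⟩ := hs x hx y hy hne
  · exact h.2 (h1 S hS h.1)
  · exact h.2 (h2 S hS h.1)

theorem exists_dom {A : Finset (Finset α)} (hs : Sep A) {x : α} (hx : x ∈ A.sup id) :
    ∃ t ∈ und A, ∀ S ∈ A, x ∈ S → t ∈ S := by
  have hne : ((A.sup id).filter (fun y => ∀ S ∈ A, x ∈ S → y ∈ S)).Nonempty :=
    ⟨x, by rw [mem_filter]; exact ⟨hx, fun S _ h => h⟩⟩
  obtain ⟨t, ht, hmax⟩ := Finset.exists_max_image _ (fun y => fr A y) hne
  rw [mem_filter] at ht
  refine ⟨t, ?_, ht.2⟩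
  unfold und
  rw [mem_filter]
  refine ⟨ht.1, fun y hy hty => ?_⟩
  have hyD : y ∈ (A.sup id).filter (fun y => ∀ S ∈ A, x ∈ S → y ∈ S) := by
    rw [mem_filter]
    exact ⟨hy, fun S hS hxS => hty S hS (ht.2 S hS hxS)⟩
  have hle := hmax y hyD
  have hsub : A.filter (fun S => t ∈ S) ⊆ A.filter (fun S => y ∈ S) := by
    intro S hS
    rw [mem_filter] at hS ⊢
    exact ⟨hS.1, hty S hS.1 hS.2⟩
  have heq := Finset.eq_of_subset_of_card_le hsub hle
  refine eq_of_same hs hy ht.1 (fun S hS hyS => ?_) hty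
  have : S ∈ A.filter (fun S => t ∈ S) := by
    rw [heq, mem_filter]; exact ⟨hS, hyS⟩
  exact (mem_filter.mp this).2

/-- The basic injection. -/
theorem inj_le {A : Finset (Finset α)} (hU : ∀ X ∈ A, ∀ Y ∈ A, X ∪ Y ∈ A) {S0 : Finset α}
    (h0 : S0 ∈ A) :
    (A.filter (fun S => Disjoint S S0)).card ≤ (A.filter (fun R => S0 ⊆ R)).card := by
  refine card_le_card_of_injOn (fun S => S ∪ S0) ?_ ?_
  · intro S hS
    have hS' := mem_filter.mp (mem_coe.mp hS)
    exact mem_coe.mpr (mem_filter.mpr ⟨hU _ hS'.1 _ h0, subset_union_right⟩)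
  · intro S hS S' hS' h
    have h1 := (mem_filter.mp (mem_coe.mp hS)).2
    have h2 := (mem_filter.mp (mem_coe.mp hS')).2
    have h3 : (S ∪ S0) \ S0 = (S' ∪ S0) \ S0 := by
      have : S ∪ S0 = S' ∪ S0 := h
      rw [this]
    rwa [union_sdiff_right, union_sdiff_right, sdiff_eq_self_of_disjoint h1,
      sdiff_eq_self_of_disjoint h2] at h3

theorem inj_eq {A : Finset (Finset α)} (hU : ∀ X ∈ A, ∀ Y ∈ A, X ∪ Y ∈ A) {S0 : Finset α}
    (h0 : S0 ∈ A)
    (heq : (A.filter (fun R => S0 ⊆ R)).card ≤ (A.filter (fun S => Disjoint S S0)).card) :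
    ∀ R ∈ A, S0 ⊆ R → R \ S0 ∈ A := by
  intro R hR hRS
  have hinj : Set.InjOn (fun S : Finset α => S ∪ S0)
      (A.filter (fun S => Disjoint S S0) : Set (Finset α)) := by
    intro S hS S' hS' h
    have h1 := (mem_filter.mp (mem_coe.mp hS)).2
    have h2 := (mem_filter.mp (mem_coe.mp hS')).2
    have h3 : (S ∪ S0) \ S0 = (S' ∪ S0) \ S0 := by
      have : S ∪ S0 = S' ∪ S0 := h
      rw [this]
    rwa [union_sdiff_right, union_sdiff_right, sdiff_eq_self_of_disjoint h1,
      sdiff_eq_self_of_disjoint h2] at h3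
  have himg : (A.filter (fun S => Disjoint S S0)).image (fun S => S ∪ S0)
      = A.filter (fun R => S0 ⊆ R) := by
    apply Finset.eq_of_subset_of_card_le
    · intro X hX
      obtain ⟨S, hS, rfl⟩ := mem_image.mp hX
      exact mem_filter.mpr ⟨hU _ (mem_filter.mp hS).1 _ h0, subset_union_right⟩
    · rw [card_image_of_injOn hinj]
      exact heq
  have hRm : R ∈ (A.filter (fun S => Disjoint S S0)).image (fun S => S ∪ S0) := by
    rw [himg]; exact mem_filter.mpr ⟨hR, hRS⟩
  obtain ⟨S, hS, hSR⟩ := mem_image.mp hRm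
  have hS' := mem_filter.mp hS
  have : R \ S0 = S := by
    rw [← hSR, union_sdiff_right, sdiff_eq_self_of_disjoint hS'.2]
  rw [this]; exact hS'.1

theorem und_sub (A : Finset (Finset α)) : und A ⊆ A.sup id := filter_subset _ _

/-- Case of a member with exactly one undominated element. -/
theorem case_one {A : Finset (Finset α)} (hU : ∀ X ∈ A, ∀ Y ∈ A, X ∪ Y ∈ A) (h0 : ∅ ∈ A)
    (hs : Sep A) (hpow : A ≠ (A.sup id).powerset)
    (ih : ∀ G : Finset (Finset α), G ⊆ A → G.card < A.card →
      (∀ X ∈ G, ∀ Y ∈ G, X ∪ Y ∈ G) → ∅ ∈ G → Sep G → G ≠ (G.sup id).powerset →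
      (∃ t, (∀ S ∈ G, t ∉ S) ∧ und G = (und A).erase t) → ∃ x ∈ G.sup id, G.card < 2 * fr G x)
    {S0 : Finset α} (hS0 : S0 ∈ A) {t : α} (ht : S0 ∩ und A = {t}) :
    ∃ x ∈ A.sup id, A.card < 2 * fr A x := by
  have htS : t ∈ S0 := (mem_inter.mp (ht ▸ mem_singleton_self t : t ∈ S0 ∩ und A)).1
  have htT : t ∈ und A := (mem_inter.mp (ht ▸ mem_singleton_self t : t ∈ S0 ∩ und A)).2
  have htU : t ∈ A.sup id := und_sub A htT
  have hdomt : ∀ x ∈ S0, ∀ S ∈ A, x ∈ S → t ∈ S := by
    intro x hx S hS hxS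
    obtain ⟨t', ht', hd⟩ := exists_dom hs (mem_sup'.mpr ⟨S0, hS0, hx⟩)
    have h1 : t' ∈ S0 ∩ und A := mem_inter.mpr ⟨hd S0 hS0 hx, ht'⟩
    rw [ht, mem_singleton] at h1
    rw [← h1]; exact hd S hS hxS
  have hdisj : A.filter (fun S => Disjoint S S0) = A.filter (fun S => t ∉ S) := by
    apply filter_congr
    intro S hS
    constructor
    · intro h htS'
      exact (disjoint_left.mp h) htS' htS
    · intro h
      rw [disjoint_left]
      intro x hxS hxS0
      exact h (hdomt x hxS0 S hS hxS)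
  have hle1 := inj_le hU hS0
  have hsub : A.filter (fun R => S0 ⊆ R) ⊆ A.filter (fun R => t ∈ R) := by
    intro R hR
    rw [mem_filter] at hR ⊢
    exact ⟨hR.1, hR.2 htS⟩
  have hle2 := card_le_card hsub
  have hsplit := card_split A t
  by_cases hlt : A.card < 2 * fr A t
  · exact ⟨t, htU, hlt⟩
  push Not at hlt
  rw [hdisj] at hle1
  have hfr : (A.filter (fun R => t ∈ R)).card = fr A t := rfl
  rw [hfr] at hle2
  have e1 : (A.filter (fun S => t ∉ S)).card = fr A t := by omega
  have e2 : (A.filter (fun R => S0 ⊆ R)).card = fr A t := by omega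
  have hfeq : A.filter (fun R => S0 ⊆ R) = A.filter (fun R => t ∈ R) :=
    eq_of_subset_of_card_le hsub (by rw [hfr]; omega)
  have hi : ∀ R ∈ A, t ∈ R → S0 ⊆ R := by
    intro R hR htR
    have : R ∈ A.filter (fun R => S0 ⊆ R) := by
      rw [hfeq]; exact mem_filter.mpr ⟨hR, htR⟩
    exact (mem_filter.mp this).2
  have hii : ∀ R ∈ A, S0 ⊆ R → R \ S0 ∈ A := inj_eq hU hS0 (by rw [hdisj]; omega)
  have hS0t : S0 = {t} := by
    apply subset_antisymm
    · intro y hy
      rw [mem_singleton]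
      exact eq_of_same hs (mem_sup'.mpr ⟨S0, hS0, hy⟩) htU (hdomt y hy)
        (fun R hR htR => hi R hR htR hy)
    · rw [singleton_subset_iff]; exact htS
  subst hS0t
  have hdel : ∀ R ∈ A, R \ {t} ∈ A := by
    intro R hR
    by_cases htR : t ∈ R
    · exact hii R hR (hi R hR htR)
    · rwa [sdiff_singleton_eq_erase, erase_eq_of_notMem htR]
  set G := A.filter (fun S => t ∉ S) with hG
  have hGA : G ⊆ A := filter_subset _ _
  have hdelG : ∀ R ∈ A, R \ {t} ∈ G := by
    intro R hR
    rw [hG, mem_filter]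
    exact ⟨hdel R hR, by simp⟩
  have hsupG : ∀ x, x ∈ G.sup id ↔ x ∈ A.sup id ∧ x ≠ t := by
    intro x
    constructor
    · intro hx
      obtain ⟨S, hS, hxS⟩ := mem_sup'.mp hx
      refine ⟨mem_sup'.mpr ⟨S, hGA hS, hxS⟩, ?_⟩
      rintro rfl
      exact (mem_filter.mp hS).2 hxS
    · rintro ⟨hx, hxt⟩
      obtain ⟨S, hS, hxS⟩ := mem_sup'.mp hx
      exact mem_sup'.mpr ⟨S \ {t}, hdelG S hS, by simp [hxS, hxt]⟩
  have hGU : ∀ X ∈ G, ∀ Y ∈ G, X ∪ Y ∈ G := by
    intro X hX Y hY
    rw [hG, mem_filter] at hX hY ⊢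
    exact ⟨hU _ hX.1 _ hY.1, by simp [hX.2, hY.2]⟩
  have hG0 : ∅ ∈ G := by rw [hG, mem_filter]; exact ⟨h0, by simp⟩
  have hGs : Sep G := by
    intro x hx y hy hxy
    have hx' := (hsupG x).mp hx
    have hy' := (hsupG y).mp hy
    obtain ⟨S, hS, h⟩ := hs x hx'.1 y hy'.1 hxy
    refine ⟨S \ {t}, hdelG S hS, ?_⟩
    simp only [mem_sdiff, mem_singleton]
    rcases h with h | h
    · exact Or.inl ⟨⟨h.1, hx'.2⟩, fun hh => h.2 hh.1⟩
    · exact Or.inr ⟨⟨h.1, hy'.2⟩, fun hh => h.2 hh.1⟩
  have hGlt : G.card < A.card := by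
    apply card_lt_card
    rw [ssubset_iff_of_subset hGA]
    exact ⟨{t}, hS0, by rw [hG, mem_filter]; simp⟩
  have hGpow : G ≠ (G.sup id).powerset := by
    intro hGp
    apply hpow
    apply subset_antisymm
    · intro S hS
      rw [mem_powerset]
      intro x hx
      exact mem_sup'.mpr ⟨S, hS, hx⟩
    · intro S hS
      rw [mem_powerset] at hS
      have h1 : S \ {t} ∈ G := by
        rw [hGp, mem_powerset]
        intro x hx
        rw [mem_sdiff, mem_singleton] at hx
        exact (hsupG x).mpr ⟨hS hx.1, hx.2⟩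
      by_cases htS' : t ∈ S
      · have h2 := hU _ (hGA h1) _ hS0
        rwa [sdiff_union_of_subset (singleton_subset_iff.mpr htS')] at h2
      · have : S \ {t} = S := by rw [sdiff_singleton_eq_erase, erase_eq_of_notMem htS']
        rw [this] at h1
        exact hGA h1
  have hGund : und G = (und A).erase t := by
    ext s
    rw [mem_erase]
    constructor
    · intro hsG
      unfold und at hsG ⊢
      rw [mem_filter] at hsG ⊢
      have hs' := (hsupG s).mp hsG.1
      refine ⟨hs'.2, hs'.1, fun y hy hsy => ?_⟩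
      have hyt : y ≠ t := by
        rintro rfl
        obtain ⟨R, hR, hsR⟩ := mem_sup'.mp hsG.1
        exact (mem_filter.mp hR).2 (hsy R (hGA hR) hsR)
      exact hsG.2 y ((hsupG y).mpr ⟨hy, hyt⟩) (fun S hS => hsy S (hGA hS))
    · rintro ⟨hst, hsA⟩
      unfold und at hsA ⊢
      rw [mem_filter] at hsA ⊢
      refine ⟨(hsupG s).mpr ⟨hsA.1, hst⟩, fun y hy hsy => ?_⟩
      apply hsA.2 y ((hsupG y).mp hy).1
      intro S hS hsS
      have := hsy (S \ {t}) (hdelG S hS) (by simp [hsS, hst])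
      exact (mem_sdiff.mp this).1
  obtain ⟨x, hx, hlt'⟩ := ih G hGA hGlt hGU hG0 hGs hGpow
    ⟨t, fun S hS => (mem_filter.mp hS).2, hGund⟩
  have hx' := (hsupG x).mp hx
  refine ⟨x, hx'.1, ?_⟩
  have hGc : G.card = fr A t := e1
  have h2 : 2 * fr G x ≤ fr A x := by
    have hd : Disjoint (G.filter (fun S => x ∈ S))
        ((G.filter (fun S => x ∈ S)).image (fun S => S ∪ {t})) := by
      rw [disjoint_left]
      intro S hS hS'
      obtain ⟨S1, _, rfl⟩ := mem_image.mp hS'
      have := (mem_filter.mp ((mem_filter.mp hS).1)).2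
      exact this (by simp)
    have hsub2 : (G.filter (fun S => x ∈ S)) ∪
        ((G.filter (fun S => x ∈ S)).image (fun S => S ∪ {t})) ⊆ A.filter (fun S => x ∈ S) := by
      intro S hS
      rcases mem_union.mp hS with h | h
      · rw [mem_filter] at h ⊢
        exact ⟨hGA h.1, h.2⟩
      · obtain ⟨S1, h1, rfl⟩ := mem_image.mp h
        rw [mem_filter] at h1 ⊢
        exact ⟨hU _ (hGA h1.1) _ hS0, mem_union_left _ h1.2⟩
    have hcard := card_le_card hsub2
    rw [card_union_of_disjoint hd, card_image_of_injOn] at hcard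
    · unfold fr; omega
    · intro S hS S' hS' h
      have h1 := (mem_filter.mp (mem_filter.mp (mem_coe.mp hS)).1).2
      have h2 := (mem_filter.mp (mem_filter.mp (mem_coe.mp hS')).1).2
      have h3 : (S ∪ {t}) \ {t} = (S' ∪ {t}) \ {t} := by
        have : S ∪ {t} = S' ∪ {t} := h
        rw [this]
      rwa [union_sdiff_right, union_sdiff_right, sdiff_singleton_eq_erase,
        sdiff_singleton_eq_erase, erase_eq_of_notMem h1, erase_eq_of_notMem h2] at h3
  omega

/-- Double counting. -/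
theorem sum_fr (A : Finset (Finset α)) (T : Finset α) :
    ∑ x ∈ T, fr A x = ∑ R ∈ A, (R ∩ T).card := by
  unfold fr
  simp_rw [card_filter]
  rw [sum_comm]
  apply sum_congr rfl
  intro R _
  rw [← card_filter]
  congr 1
  ext x
  simp only [mem_filter, mem_inter]
  tauto

theorem exists_of_sum {A : Finset (Finset α)} {T : Finset α}
    (h : 0 < ∑ R ∈ A, (2 * ((R ∩ T).card : ℤ) - T.card)) : ∃ x ∈ T, A.card < 2 * fr A x := by
  by_contra hcon
  push Not at hcon
  have h1 : ∑ x ∈ T, 2 * fr A x ≤ ∑ _x ∈ T, A.card := sum_le_sum hcon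
  rw [← mul_sum, sum_fr, sum_const, smul_eq_mul] at h1
  rw [sum_sub_distrib, ← mul_sum, sum_const, nsmul_eq_mul] at h
  have h2 : (2 * ∑ R ∈ A, (R ∩ T).card : ℤ) ≤ T.card * A.card := by exact_mod_cast h1
  nlinarith

theorem sum_ind {A : Finset (Finset α)} {X : Finset α} (hX : X ∈ A) (c : ℤ) :
    ∑ R ∈ A, (if R = X then c else 0) = c := by
  rw [sum_ite_eq' A X (fun _ => c), if_pos hX]

/-- Case: every nonempty member has at least three undominated elements. -/
theorem case_three {A : Finset (Finset α)} (hU : ∀ X ∈ A, ∀ Y ∈ A, X ∪ Y ∈ A) (h0 : ∅ ∈ A)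
    (hpow : A ≠ (A.sup id).powerset)
    (hcl : ∀ S ∈ A, (S ∩ und A).card ≤ 2 ∨ (und A).card ≤ 2 * (S ∩ und A).card)
    (h3 : ∀ S ∈ A, S ≠ ∅ → 3 ≤ (S ∩ und A).card) :
    ∃ x ∈ A.sup id, A.card < 2 * fr A x := by
  set T := und A with hT
  set U := A.sup id with hUdef
  have hUA : U ∈ A := sup_mem hU h0 A (Subset.refl _)
  have hTU : T ⊆ U := und_sub A
  have hUne : U ≠ ∅ := by
    intro hE
    apply hpow
    rw [hE, powerset_empty]
    apply subset_antisymm
    · intro S hS
      rw [mem_singleton]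
      have : S ⊆ U := le_sup (f := id) hS
      rw [hE] at this
      exact subset_empty.mp this
    · rw [singleton_subset_iff]; exact h0
  have hT3 : 3 ≤ T.card := (h3 U hUA hUne).trans (card_le_card inter_subset_right)
  obtain ⟨t, ht⟩ : T.Nonempty := card_pos.mp (by omega)
  set M := (A.filter (fun S => t ∉ S)).sup id with hM
  have hMA : M ∈ A := sup_mem hU h0 _ (filter_subset _ _)
  have htM : t ∉ M := by
    intro h
    obtain ⟨S, hS, htS⟩ := mem_sup'.mp h
    exact (mem_filter.mp hS).2 htS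
  have hTM : T.erase t ⊆ M := by
    intro s hs
    obtain ⟨hst, hsT⟩ := mem_erase.mp hs
    have hsT' := (mem_filter.mp (show s ∈ (A.sup id).filter _ from hsT)).2
    by_contra hsM
    apply hst
    symm
    apply hsT' t (hTU ht)
    intro S hS hsS
    by_contra htS
    exact hsM (mem_sup'.mpr ⟨S, mem_filter.mpr ⟨hS, htS⟩, hsS⟩)
  have hMT : (M ∩ T).card = T.card - 1 := by
    have : M ∩ T = T.erase t := by
      ext x
      rw [mem_inter, mem_erase]
      constructor
      · rintro ⟨h1, h2⟩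
        exact ⟨fun h => htM (h ▸ h1), h2⟩
      · rintro ⟨h1, h2⟩
        exact ⟨hTM (mem_erase.mpr ⟨h1, h2⟩), h2⟩
    rw [this, card_erase_of_mem ht]
  have hMne : M ≠ ∅ := by
    intro h
    rw [h, empty_inter, card_empty] at hMT
    omega
  have hMU : M ≠ U := fun h => htM (h ▸ hTU ht)
  have hUT : U ∩ T = T := inter_eq_right.mpr hTU
  have hsum : 0 < ∑ R ∈ A, (2 * ((R ∩ T).card : ℤ) - T.card) := by
    have hpt : ∀ R ∈ A, ((if R = ∅ then -(T.card : ℤ) else 0) + (if R = U then (T.card : ℤ) else 0)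
        + (if R = M then ((T.card : ℤ) - 2) else 0)) ≤ 2 * ((R ∩ T).card : ℤ) - T.card := by
      intro R hR
      by_cases hR0 : R = ∅
      · subst hR0
        rw [if_pos rfl, if_neg hUne.symm, if_neg hMne.symm, empty_inter, card_empty]
        push_cast; linarith
      by_cases hRU : R = U
      · subst hRU
        rw [if_neg hUne, if_pos rfl, if_neg hMU.symm, hUT]
        linarith
      by_cases hRM : R = M
      · subst hRM
        rw [if_neg hMne, if_neg hMU, if_pos rfl, hMT]
        have : ((T.card - 1 : ℕ) : ℤ) = (T.card : ℤ) - 1 := by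
          rw [Nat.cast_sub (by omega)]; simp
        rw [this]; linarith
      rw [if_neg hR0, if_neg hRU, if_neg hRM]
      have := h3 R hR hR0
      have h6 : T.card ≤ 2 * (R ∩ T).card := by
        rcases hcl R hR with h | h
        · omega
        · exact h
      have h7 : (T.card : ℤ) ≤ 2 * ((R ∩ T).card : ℤ) := by exact_mod_cast h6
      linarith
    have := sum_le_sum hpt
    rw [sum_add_distrib, sum_add_distrib, sum_ind h0, sum_ind hUA, sum_ind hMA] at this
    have h3' : (3 : ℤ) ≤ (T.card : ℤ) := by exact_mod_cast hT3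
    linarith
  obtain ⟨x, hx, hlt⟩ := exists_of_sum hsum
  exact ⟨x, hTU hx, hlt⟩

/-- A member with exactly two undominated elements: either one of them is frequent, or the
member can be removed from every member containing it. -/
theorem pair_struct {A : Finset (Finset α)} (hU : ∀ X ∈ A, ∀ Y ∈ A, X ∪ Y ∈ A)
    (hs : Sep A) (hno : ∀ x ∈ A.sup id, 2 * fr A x ≤ A.card)
    {S0 : Finset α} (hS0 : S0 ∈ A) (h2 : (S0 ∩ und A).card = 2) :
    ∀ R ∈ A, S0 ⊆ R → R \ S0 ∈ A := by
  obtain ⟨s, t, hst, hST⟩ := card_eq_two.mp h2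
  set T := und A with hT
  have hs0 : s ∈ S0 := (mem_inter.mp (hST ▸ (by simp) : s ∈ S0 ∩ T)).1
  have hsT : s ∈ T := (mem_inter.mp (hST ▸ (by simp) : s ∈ S0 ∩ T)).2
  have ht0 : t ∈ S0 := (mem_inter.mp (hST ▸ (by simp) : t ∈ S0 ∩ T)).1
  have htT : t ∈ T := (mem_inter.mp (hST ▸ (by simp) : t ∈ S0 ∩ T)).2
  have hTU : T ⊆ A.sup id := und_sub A
  have hls := hno s (hTU hsT)
  have hlt := hno t (hTU htT)
  have hdisj : A.filter (fun S => Disjoint S S0) = A.filter (fun S => s ∉ S ∧ t ∉ S) := by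
    apply filter_congr
    intro S hS
    constructor
    · intro h
      exact ⟨fun h' => (disjoint_left.mp h) h' hs0, fun h' => (disjoint_left.mp h) h' ht0⟩
    · intro h
      rw [disjoint_left]
      intro x hxS hxS0
      obtain ⟨t', ht', hd⟩ := exists_dom hs (mem_sup'.mpr ⟨S0, hS0, hxS0⟩)
      have h1 : t' ∈ S0 ∩ T := mem_inter.mpr ⟨hd S0 hS0 hxS0, ht'⟩
      rw [hST, mem_insert, mem_singleton] at h1
      rcases h1 with h1 | h1
      · exact h.1 (h1 ▸ hd S hS hxS)
      · exact h.2 (h1 ▸ hd S hS hxS)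
  have hle1 := inj_le hU hS0
  rw [hdisj] at hle1
  have hsub : A.filter (fun R => S0 ⊆ R) ⊆ A.filter (fun R => s ∈ R ∧ t ∈ R) := by
    intro R hR
    rw [mem_filter] at hR ⊢
    exact ⟨hR.1, hR.2 hs0, hR.2 ht0⟩
  have hle2 := card_le_card hsub
  have hcount : fr A s + fr A t + (A.filter (fun S => s ∉ S ∧ t ∉ S)).card
      = A.card + (A.filter (fun R => s ∈ R ∧ t ∈ R)).card := by
    unfold fr
    simp only [card_filter, card_eq_sum_ones A]
    rw [← sum_add_distrib, ← sum_add_distrib, ← sum_add_distrib]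
    apply sum_congr rfl
    intro R _
    by_cases h1 : s ∈ R <;> by_cases h2 : t ∈ R <;> simp [h1, h2]
  exact inj_eq hU hS0 (by rw [hdisj]; omega)

/-- Case: every nonempty member has at least two undominated elements, one has exactly two. -/
theorem case_two {A : Finset (Finset α)} (hU : ∀ X ∈ A, ∀ Y ∈ A, X ∪ Y ∈ A) (h0 : ∅ ∈ A)
    (hs : Sep A)
    (hcl : ∀ S ∈ A, (S ∩ und A).card ≤ 2 ∨ (und A).card ≤ 2 * (S ∩ und A).card)
    (h2 : ∀ S ∈ A, S ≠ ∅ → 2 ≤ (S ∩ und A).card)
    {S0 : Finset α} (hS0 : S0 ∈ A) (hc0 : (S0 ∩ und A).card = 2) :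
    ∃ x ∈ A.sup id, A.card < 2 * fr A x := by
  by_contra hcon
  have hno : ∀ x ∈ A.sup id, 2 * fr A x ≤ A.card := by
    intro x hx
    by_contra h
    push Not at h
    exact hcon ⟨x, hx, h⟩
  obtain ⟨s, t, hst, hST⟩ := card_eq_two.mp hc0
  set T := und A with hT
  have hs0 : s ∈ S0 := (mem_inter.mp (hST ▸ (by simp) : s ∈ S0 ∩ T)).1
  have hsT : s ∈ T := (mem_inter.mp (hST ▸ (by simp) : s ∈ S0 ∩ T)).2
  have ht0 : t ∈ S0 := (mem_inter.mp (hST ▸ (by simp) : t ∈ S0 ∩ T)).1
  have htT : t ∈ T := (mem_inter.mp (hST ▸ (by simp) : t ∈ S0 ∩ T)).2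
  have hTU : T ⊆ A.sup id := und_sub A
  set U := A.sup id with hUdef
  have hUA : U ∈ A := sup_mem hU h0 A (Subset.refl _)
  have hleU : ∀ R ∈ A, R ⊆ U := fun R hR => le_sup (f := id) hR
  have hii : ∀ S ∈ A, (S ∩ T).card = 2 → U \ S ∈ A := fun S hS hS2 =>
    pair_struct hU hs hno hS hS2 U hUA (hleU S hS)
  have hcompl : ∀ S ∈ A, (U \ S) ∩ T = T \ (S ∩ T) := by
    intro S _
    ext x
    simp only [mem_inter, mem_sdiff]
    constructor
    · rintro ⟨⟨_, h2⟩, h3⟩; exact ⟨h3, fun h => h2 h.1⟩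
    · rintro ⟨h1, h2⟩; exact ⟨⟨hTU h1, fun h => h2 ⟨h, h1⟩⟩, h1⟩
  have hcomplc : ∀ S ∈ A, (S ∩ T).card = 2 → ((U \ S) ∩ T).card + 2 = T.card := by
    intro S hS hS2
    rw [hcompl S hS, card_sdiff_of_subset inter_subset_right, hS2]
    have := card_le_card (inter_subset_right (s₁ := S) (s₂ := T))
    omega
  set V := U \ S0 with hV
  have hVA : V ∈ A := hii S0 hS0 hc0
  obtain ⟨P, hP, hPst⟩ : ∃ P ∈ A, ¬ (s ∈ P ↔ t ∈ P) := by
    obtain ⟨P, hP, h | h⟩ := hs s (hTU hsT) t (hTU htT) hst
    · exact ⟨P, hP, fun hh => h.2 (hh.mp h.1)⟩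
    · exact ⟨P, hP, fun hh => h.2 (hh.mpr h.1)⟩
  set Q := P ∪ V with hQ
  have hQA : Q ∈ A := hU _ hP _ hVA
  have hsV : s ∉ V := by rw [hV, mem_sdiff]; exact fun h => h.2 hs0
  have htV : t ∉ V := by rw [hV, mem_sdiff]; exact fun h => h.2 ht0
  have hQst : ¬ (s ∈ Q ↔ t ∈ Q) := by
    rw [hQ, mem_union, mem_union]
    simpa [hsV, htV] using hPst
  have hQU : Q ≠ U := fun h => hQst (by
    rw [h]; exact ⟨fun _ => hTU htT, fun _ => hTU hsT⟩)
  have hQ0 : Q ≠ ∅ := fun h => hQst (by rw [h]; simp)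
  have hU0 : U ≠ ∅ := fun h => by
    have := hTU hsT
    rw [h] at this
    simp at this
  have hQT : (Q ∩ T).card + 1 = T.card := by
    have hkey : ∀ x, x ∈ T → x ≠ s → x ≠ t → x ∈ Q := by
      intro x hxT hxs hxt
      rw [hQ, mem_union]
      right
      rw [hV, mem_sdiff]
      refine ⟨hTU hxT, fun hx0 => ?_⟩
      have : x ∈ S0 ∩ T := mem_inter.mpr ⟨hx0, hxT⟩
      rw [hST, mem_insert, mem_singleton] at this
      rcases this with h | h
      · exact hxs h
      · exact hxt h
    by_cases hsQ : s ∈ Q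
    · have htQ : t ∉ Q := fun h => hQst ⟨fun _ => h, fun _ => hsQ⟩
      have : Q ∩ T = T.erase t := by
        ext x
        rw [mem_inter, mem_erase]
        constructor
        · rintro ⟨h1, h2⟩
          exact ⟨fun h => htQ (h ▸ h1), h2⟩
        · rintro ⟨h1, h2⟩
          refine ⟨?_, h2⟩
          by_cases hxs : x = s
          · rw [hxs]; exact hsQ
          · exact hkey x h2 hxs h1
      rw [this, card_erase_of_mem htT]
      have := card_pos.mpr ⟨t, htT⟩
      omega
    · have htQ : t ∈ Q := by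
        by_contra h
        exact hQst ⟨fun h' => absurd h' hsQ, fun h' => absurd h' h⟩
      have : Q ∩ T = T.erase s := by
        ext x
        rw [mem_inter, mem_erase]
        constructor
        · rintro ⟨h1, h2⟩
          exact ⟨fun h => hsQ (h ▸ h1), h2⟩
        · rintro ⟨h1, h2⟩
          refine ⟨?_, h2⟩
          by_cases hxt : x = t
          · rw [hxt]; exact htQ
          · exact hkey x h2 h1 hxt
      rw [this, card_erase_of_mem hsT]
      have := card_pos.mpr ⟨s, hsT⟩
      omega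
  have hQ2 := h2 Q hQA hQ0
  have hT3 : 3 ≤ T.card := by omega
  have hUT : U ∩ T = T := inter_eq_right.mpr hTU
  set PP := A.filter (fun S => (S ∩ T).card = 2) with hPP
  set PP' := PP.image (fun S => U \ S) with hPP'
  have hPPmem : ∀ S, S ∈ PP ↔ S ∈ A ∧ (S ∩ T).card = 2 := fun S => by rw [hPP, mem_filter]
  have hPP'A : PP' ⊆ A := by
    intro X hX
    obtain ⟨S, hS, rfl⟩ := mem_image.mp hX
    exact hii S ((hPPmem S).mp hS).1 ((hPPmem S).mp hS).2
  have hPP'c : ∀ X ∈ PP', (X ∩ T).card + 2 = T.card := by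
    intro X hX
    obtain ⟨S, hS, rfl⟩ := mem_image.mp hX
    exact hcomplc S ((hPPmem S).mp hS).1 ((hPPmem S).mp hS).2
  have hcardP : PP'.card = PP.card := by
    rw [hPP']
    apply card_image_of_injOn
    intro S hS S' hS' h
    have h1 := hleU S ((hPPmem S).mp (mem_coe.mp hS)).1
    have h2 := hleU S' ((hPPmem S').mp (mem_coe.mp hS')).1
    have h3 : U \ (U \ S) = U \ (U \ S') := by
      have : U \ S = U \ S' := h
      rw [this]
    rwa [Finset.sdiff_sdiff_eq_self h1, Finset.sdiff_sdiff_eq_self h2] at h3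
  set c : ℤ := ((T.card - 4 : ℕ) : ℤ) with hc
  have hsumP : ∑ R ∈ A, (if R ∈ PP then c else 0) = PP.card * c := by
    rw [← sum_filter, filter_mem_eq_inter, inter_eq_right.mpr (filter_subset _ _), sum_const,
      nsmul_eq_mul]
  have hsumP' : ∑ R ∈ A, (if R ∈ PP' then c else 0) = PP.card * c := by
    rw [← sum_filter, filter_mem_eq_inter, inter_eq_right.mpr hPP'A, sum_const,
      nsmul_eq_mul, hcardP]
  have hsum : 0 < ∑ R ∈ A, (2 * ((R ∩ T).card : ℤ) - T.card) := by
    have hpt : ∀ R ∈ A, ((if R = ∅ then -(T.card : ℤ) else 0) + (if R = U then (T.card : ℤ) else 0)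
        + (if R = Q then ((T.card : ℤ) - 2) else 0) + ((if R ∈ PP' then c else 0)
        - (if R ∈ PP then c else 0))) ≤ 2 * ((R ∩ T).card : ℤ) - T.card := by
      intro R hR
      by_cases hR0 : R = ∅
      · subst hR0
        have h1 : ∅ ∉ PP := by rw [hPPmem, empty_inter, card_empty]; simp
        have h2 : (if (∅ : Finset α) ∈ PP' then c else 0) = 0 := by
          split_ifs with h
          · have := hPP'c _ h
            rw [empty_inter, card_empty] at this
            omega
          · rfl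
        rw [if_pos rfl, if_neg hU0.symm, if_neg hQ0.symm, if_neg h1, h2,
          empty_inter, card_empty]
        push_cast; linarith
      by_cases hRU : R = U
      · have h1 : R ∉ PP := by
          rw [hPPmem, hRU, hUT]
          rintro ⟨_, h⟩
          omega
        have h2 : R ∉ PP' := by
          intro h
          have := hPP'c _ h
          rw [hRU, hUT] at this
          omega
        rw [if_neg hR0, if_pos hRU, if_neg (fun h => hQU (h.symm.trans hRU)), if_neg h1,
          if_neg h2, hRU, hUT]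
        linarith
      by_cases hRQ : R = Q
      · have h2 : R ∉ PP' := by
          intro h
          have := hPP'c _ h
          rw [hRQ] at this
          omega
        have h1 : 0 ≤ (if R ∈ PP then c else 0) := by
          split_ifs
          · rw [hc]; exact Int.natCast_nonneg _
          · exact le_refl _
        have h3 : ((Q ∩ T).card : ℤ) + 1 = T.card := by exact_mod_cast hQT
        rw [if_neg hR0, if_neg hRU, if_pos hRQ, if_neg h2]
        rw [hRQ] at h1 ⊢
        linarith
      rw [if_neg hR0, if_neg hRU, if_neg hRQ]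
      have hR2 := h2 R hR hR0
      by_cases hRP : R ∈ PP
      · have hRc := ((hPPmem R).mp hRP).2
        rw [if_pos hRP, hRc]
        by_cases hRP' : R ∈ PP'
        · have := hPP'c R hRP'
          rw [if_pos hRP']
          have h4 : (T.card : ℤ) = 4 := by
            have : T.card = 4 := by omega
            exact_mod_cast this
          rw [h4]; norm_num
        · rw [if_neg hRP']
          have h5 : (T.card : ℤ) ≤ c + 4 := by
            rw [hc]
            have : T.card ≤ (T.card - 4) + 4 := by omega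
            exact_mod_cast this
          push_cast
          linarith
      · rw [if_neg hRP]
        by_cases hRP' : R ∈ PP'
        · have hcc := hPP'c R hRP'
          rw [if_pos hRP']
          have h4 : c + 4 = (T.card : ℤ) := by
            rw [hc]
            have : (T.card - 4) + 4 = T.card := by omega
            exact_mod_cast this
          have h5 : ((R ∩ T).card : ℤ) + 2 = T.card := by exact_mod_cast hcc
          linarith
        · rw [if_neg hRP']
          have h6 : T.card ≤ 2 * (R ∩ T).card := by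
            rcases hcl R hR with h | h
            · exact absurd ((hPPmem R).mpr ⟨hR, by omega⟩) hRP
            · exact h
          have h7 : (T.card : ℤ) ≤ 2 * ((R ∩ T).card : ℤ) := by exact_mod_cast h6
          linarith
    have := sum_le_sum hpt
    rw [sum_add_distrib, sum_add_distrib, sum_add_distrib, sum_sub_distrib, sum_ind h0,
      sum_ind hUA, sum_ind hQA, hsumP, hsumP'] at this
    have h3' : (3 : ℤ) ≤ (T.card : ℤ) := by exact_mod_cast hT3
    linarith
  obtain ⟨x, hx, hlt'⟩ := exists_of_sum hsum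
  exact hcon ⟨x, hTU hx, hlt'⟩

theorem main_empty : ∀ n : ℕ, ∀ A : Finset (Finset α), A.card = n →
    (∀ X ∈ A, ∀ Y ∈ A, X ∪ Y ∈ A) → ∅ ∈ A → Sep A → A ≠ (A.sup id).powerset →
    (∀ S ∈ A, (S ∩ und A).card ≤ 2 ∨ (und A).card ≤ 2 * (S ∩ und A).card) →
    ∃ x ∈ A.sup id, A.card < 2 * fr A x := by
  intro n
  induction n using Nat.strong_induction_on with
  | _ n ih =>
    intro A hA hU h0 hs hpow hcl
    by_cases h1 : ∃ S0 ∈ A, ∃ t, S0 ∩ und A = {t}
    · obtain ⟨S0, hS0, t, ht⟩ := h1
      refine case_one hU h0 hs hpow ?_ hS0 ht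
      intro G hGA hGlt hGU hG0 hGs hGp hGund
      refine ih G.card (by omega) G rfl hGU hG0 hGs hGp ?_
      intro S hS
      obtain ⟨t, htS, hu⟩ := hGund
      have h1 : S ∩ und G = S ∩ und A := by
        rw [hu]
        ext x
        simp only [mem_inter, mem_erase]
        constructor
        · rintro ⟨h1, _, h3⟩; exact ⟨h1, h3⟩
        · rintro ⟨h1, h3⟩; exact ⟨h1, fun h => htS S hS (h ▸ h1), h3⟩
      have h2 : (und G).card ≤ (und A).card := by
        rw [hu]; exact card_erase_le
      rw [h1]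
      rcases hcl S (hGA hS) with h | h
      · exact Or.inl h
      · exact Or.inr (h2.trans h)
    have hpos : ∀ S ∈ A, S ≠ ∅ → 2 ≤ (S ∩ und A).card := by
      intro S hS hS0
      have hne : (S ∩ und A).Nonempty := by
        obtain ⟨x, hx⟩ := nonempty_iff_ne_empty.mpr hS0
        obtain ⟨t, ht, hd⟩ := exists_dom hs (mem_sup'.mpr ⟨S, hS, hx⟩)
        exact ⟨t, mem_inter.mpr ⟨hd S hS hx, ht⟩⟩
      have h1' : (S ∩ und A).card ≠ 1 := by
        intro h
        obtain ⟨t, ht⟩ := card_eq_one.mp h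
        exact h1 ⟨S, hS, t, ht⟩
      have := card_pos.mpr hne
      omega
    by_cases h2 : ∃ S0 ∈ A, (S0 ∩ und A).card = 2
    · obtain ⟨S0, hS0, hc⟩ := h2
      exact case_two hU h0 hs hcl hpos hS0 hc
    · refine case_three hU h0 hpow hcl (fun S hS hS0 => ?_)
      have := hpos S hS hS0
      have h3 : (S ∩ und A).card ≠ 2 := fun h => h2 ⟨S, hS, h⟩
      omega

/-- **Main theorem.** -/
theorem main (A : Finset (Finset α)) (hne : A.Nonempty)
    (hU : ∀ X ∈ A, ∀ Y ∈ A, X ∪ Y ∈ A) (hs : Sep A) (hpow : A ≠ (A.sup id).powerset)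
    (hcl : ∀ S ∈ A, (S ∩ und A).card ≤ 2 ∨ (und A).card ≤ 2 * (S ∩ und A).card) :
    ∃ x ∈ A.sup id, A.card < 2 * fr A x := by
  by_cases h0 : ∅ ∈ A
  · exact main_empty _ A rfl hU h0 hs hpow hcl
  have hsup : (insert ∅ A).sup id = A.sup id := by
    rw [sup_insert]; simp
  have hfr : ∀ x, fr (insert ∅ A) x = fr A x := by
    intro x
    unfold fr
    rw [filter_insert, if_neg (by simp)]
  have hcard : (insert ∅ A).card = A.card + 1 := card_insert_of_notMem h0
  have hU' : ∀ X ∈ insert ∅ A, ∀ Y ∈ insert ∅ A, X ∪ Y ∈ insert ∅ A := by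
    intro X hX Y hY
    rcases mem_insert.mp hX with rfl | hX
    · rwa [empty_union]
    rcases mem_insert.mp hY with rfl | hY
    · rw [union_empty]; exact mem_insert_of_mem hX
    exact mem_insert_of_mem (hU X hX Y hY)
  by_cases hp : insert ∅ A = ((insert ∅ A).sup id).powerset
  · obtain ⟨S, hS⟩ := hne
    have hSne : S ≠ ∅ := fun h => h0 (h ▸ hS)
    obtain ⟨x, hx⟩ := nonempty_iff_ne_empty.mpr hSne
    have hxU : x ∈ A.sup id := mem_sup'.mpr ⟨S, hS, hx⟩
    have hxm : {x} ∈ insert ∅ A := by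
      rw [hp, mem_powerset, hsup, singleton_subset_iff]; exact hxU
    refine ⟨x, hxU, ?_⟩
    have h1 := inj_le hU' hxm
    have h2 := card_split (insert ∅ A) x
    have h3 : (insert ∅ A).filter (fun S => Disjoint S {x})
        = (insert ∅ A).filter (fun S => x ∉ S) := by
      apply filter_congr
      intro S _
      rw [disjoint_singleton_right]
    have h4 : (insert ∅ A).filter (fun R => ({x} : Finset α) ⊆ R)
        = (insert ∅ A).filter (fun S => x ∈ S) := by
      apply filter_congr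
      intro S _
      rw [singleton_subset_iff]
    rw [h3, h4] at h1
    have h5 : ((insert ∅ A).filter (fun S => x ∈ S)).card = fr (insert ∅ A) x := rfl
    rw [h5] at h1
    rw [hfr] at h1 h2
    omega
  · have hund : und (insert ∅ A) = und A := by
      unfold und
      rw [hsup]
      apply filter_congr
      intro t _
      constructor
      · intro h y hy hty
        apply h y hy
        intro S hS htS
        rcases mem_insert.mp hS with rfl | hS
        · simp at htS
        · exact hty S hS htS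
      · intro h y hy hty
        exact h y hy (fun S hS => hty S (mem_insert_of_mem hS))
    have hs' : Sep (insert ∅ A) := by
      intro x hx y hy hxy
      rw [hsup] at hx hy
      obtain ⟨S, hS, h⟩ := hs x hx y hy hxy
      exact ⟨S, mem_insert_of_mem hS, h⟩
    obtain ⟨x, hx, hlt⟩ := main_empty _ (insert ∅ A) rfl hU' (mem_insert_self _ _) hs' hp
      (by
        rw [hund]
        intro S hS
        rcases mem_insert.mp hS with rfl | hS
        · left; simp
        · exact hcl S hS)
    rw [hsup] at hx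
    rw [hfr, hcard] at hlt
    exact ⟨x, hx, by omega⟩

end Pool.Agent.Y384.UC.Few
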